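import Pool.Agent.J6H79.WP.Flat
import Pool.Agent.J6H79.WP.Axi

/-!
# Small-time null control of the Navier-Stokes equations: a power law for the cost at a no-slip wall

An arbitrary classical trajectory on `[0, T]` (driven by any control) is considered near a point `c`
of the uncontrolled no-slip wall; nothing is assumed outside the disc `B(c, δ)`.  The vorticity `w`
is at least `a > 0` in the disc at time `0`, and at most `b < a` at time `T` (`b = 0` if the fluid is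
at rest), and `|w| ≤ K`.  Put `r = 10 √(T log (8 K / (a - b)))`.  If `∫₀ᵀ l` is the action
(`|velocity| ≤ l(t) d`, `d` the distance to the wall, for instance `l(t)` the supremum of the
gradient) and if the velocity in the direction of `∇d` is at most `h(t) d^(1+θ)` (for instance `h(t)`
is the Hölder constant of exponent `θ` of the gradient), then

  `r > δ / 2`   or   `∫₀ᵀ l > δ / (8 r)`   or   `∫₀ᵀ h > r ^ (-θ) / 5`.

So unless the vorticity becomes exponentially large, `K ≥ ((a - b) / 8) exp (δ² / (400 T))`, the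
integral over `[0, T]` of the norm of the velocity in `C^(1,θ)` is at least of the order
`T ^ (-θ/2)`, up to a power of `log K`, for every `0 < θ ≤ 1`.  The starting result `WallAction` has
the lower bound `(1/4) log (1/T)` for `∫₀ᵀ l`.

Method: the fluid in the layer `r / 5 ≤ d ≤ r` cannot leave it if `∫₀ᵀ h` is small, since the normal
velocity there is `O(h r^(1+θ))`, and it cannot leave the disc if `∫₀ᵀ l` is small; the vorticity is
compared with three exponential barriers in the box.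
-/

set_option autoImplicit false

namespace Pool.Agent.Results.MP_79abb3_an.PowerLawCost

open Set Filter Topology Pool.Agent.Q176.WL Pool.Agent.J6H79.WP

/-- `L(t)` is the integral of the nonnegative function `l` over `[0, t]`. -/
structure Action (T : ℝ) (L l : ℝ → ℝ) : Prop where
  cont : ContinuousOn L (Icc 0 T)
  zero : L 0 = 0
  deriv : ∀ t ∈ Ioo 0 T, HasDerivAt L (l t) t
  nonneg : ∀ t ∈ Ioo 0 T, 0 ≤ l t

/-- Plane flows near the point `c`: `(u, v, p)` is a classical solution of the Navier-Stokes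
equations in `(0, T) × (Ω ∩ B(c, δ))`, the vorticity `w = v_x - u_y` extends continuously to
`[0, T] × (Ω ∩ B(c, δ))`, `|w| ≤ K`, and `w ≥ a` at time `0`. -/
structure Plane (Ω : Set (ℝ × ℝ)) (c : ℝ × ℝ) (δ T : ℝ) (u v p w : E → ℝ) (K a : ℝ) : Prop where
  ns : IsNS (Ioo 0 T ×ˢ Reg Ω c δ) u v p
  vort : ∀ z ∈ Ioo 0 T ×ˢ Reg Ω c δ, w z = pd ex v z - pd ey u z
  cont : ContinuousOn w (Icc 0 T ×ˢ Reg Ω c δ)
  bound : ∀ z ∈ Ioo 0 T ×ˢ Reg Ω c δ, |w z| ≤ K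
  init : ∀ z ∈ Reg Ω c δ, a ≤ w (0, z)

/-- Flows in space, axisymmetric without swirl, near the circle through `c` (cylindrical coordinates,
`x` is the distance to the axis): `(u, v, p)` is a classical solution in `(0, T) × (Ω ∩ B(c, δ))`, the
quotient `w = (v_x - u_y) / x` of the angular component of the vorticity by the distance to the axis
extends continuously to `[0, T] × (Ω ∩ B(c, δ))`, `|w| ≤ K`, and `w ≥ a` at time `0`. -/
structure Axisymmetric (Ω : Set (ℝ × ℝ)) (c : ℝ × ℝ) (δ T : ℝ) (u v p w : E → ℝ) (K a : ℝ) :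
    Prop where
  ns : IsAxi (Ioo 0 T ×ˢ Reg Ω c δ) u v p
  vort : ∀ z ∈ Ioo 0 T ×ˢ Reg Ω c δ, w z = (pd ex v z - pd ey u z) / z.2.1
  cont : ContinuousOn w (Icc 0 T ×ˢ Reg Ω c δ)
  bound : ∀ z ∈ Ioo 0 T ×ˢ Reg Ω c δ, |w z| ≤ K
  init : ∀ z ∈ Reg Ω c δ, a ≤ w (0, z)

/-- The bounds `|(u, v)| ≤ l(t) d` and `|(u, v) · ∇d| ≤ h(t) d^(1+θ)` near the wall. -/
structure NearWall (Ω : Set (ℝ × ℝ)) (c : ℝ × ℝ) (δ T : ℝ) (d : ℝ × ℝ → ℝ) (u v : E → ℝ)
    (l h : ℝ → ℝ) (θ : ℝ) : Prop where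
  speed : ∀ z ∈ Ioo 0 T ×ˢ Reg Ω c δ, u z ^ 2 + v z ^ 2 ≤ (l z.1 * d z.2) ^ 2
  normal : ∀ z ∈ Ioo 0 T ×ˢ Reg Ω c δ,
    |u z * dx d z.2 + v z * dy d z.2| ≤ h z.1 * d z.2 ^ (1 + θ)

/-- The flat no-slip wall `y = 0`, in the half disc of radius `δ` with the centre `(c₁, 0)`: the
velocity tends to zero at the wall, the `y`-derivative of the velocity is at most `l(t)`, and
`u_x` is Hölder continuous with exponent `θ` and constant `h(t)`. -/
structure FlatWall (c₁ δ T : ℝ) (u v : E → ℝ) (l h : ℝ → ℝ) (θ : ℝ) : Prop where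
  noslip_u : ∀ t ∈ Ioo 0 T, ∀ x, |x - c₁| < δ → Tendsto (fun y => u (t, x, y)) (𝓝[>] 0) (𝓝 0)
  noslip_v : ∀ t ∈ Ioo 0 T, ∀ x, |x - c₁| < δ → Tendsto (fun y => v (t, x, y)) (𝓝[>] 0) (𝓝 0)
  grad : ∀ z ∈ Ioo 0 T ×ˢ Reg HP (c₁, 0) δ, pd ey u z ^ 2 + pd ey v z ^ 2 ≤ l z.1 ^ 2
  holder : ∀ t ∈ Ioo 0 T, ∀ z ∈ Reg HP (c₁, 0) δ, ∀ z' ∈ Reg HP (c₁, 0) δ,
    |pd ex u (t, z) - pd ex u (t, z')| ≤ h t * √(dsq z z') ^ θ

/-- The length `10 √(T log (8 K / (a - b)))`. -/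
noncomputable def rad (T K a b : ℝ) : ℝ := 10 * √(T * Real.log (8 * K / (a - b)))

/-- Let `0 < a ≤ K`, `T > 0`, `L = ∫ l`, `H = ∫ h`.
(1) Plane flows, any wall, `θ ≥ 0`: if `0 < r ≤ δ / 2`, `L(T) ≤ δ / (8 r)` and `H(T) r^θ ≤ 1/5` then
`w(T, z) ≥ a - 7 K exp (- r² / (100 T))` for all `z` with `|z - c| ≤ δ / 2` and `d(z) = 3 r / 5`.
Hence, if `0 ≤ b < a`, `r = rad T K a b` and `w(T, z) ≤ b` for some such `z`, then `r > δ / 2` or
`L(T) > δ / (8 r)` or `H(T) > r^(-θ) / 5`.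
(2) Plane flows, flat wall, `θ > 0`: the same alternative if `w(T, ·) ≤ b` in the half disc.
(3) Axisymmetric flows without swirl, any wall, the disc at distance at least `δ` from the axis,
`θ ≥ 0`: if `w(T, z) ≤ b`, `|z - c| ≤ δ / 2` and `d(z) = 3 r / 5`, `r = rad T K a b`, then `r > δ / 2`
or `L(T) > δ / (16 r)` or `H(T) > r^(-θ) / 10`. -/
theorem result (T : ℝ) (hT : 0 < T) (δ : ℝ) (K a : ℝ) (ha : 0 < a) (haK : a ≤ K)
    (L l H h : ℝ → ℝ) (hL : Action T L l) (hH : Action T H h) (u v p w : E → ℝ) (θ : ℝ) :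
    (∀ (Ω : Set (ℝ × ℝ)) (c : ℝ × ℝ) (d : ℝ × ℝ → ℝ), IsWall Ω c δ d → 0 ≤ θ →
      Plane Ω c δ T u v p w K a → NearWall Ω c δ T d u v l h θ →
      (∀ r, 0 < r → r ≤ δ / 2 → L T ≤ δ / (8 * r) → H T * r ^ θ ≤ 1 / 5 →
        ∀ z ∈ Reg Ω c δ, dsq z c ≤ δ ^ 2 / 4 → d z = 3 * r / 5 →
          a - 7 * K * Real.exp (-(r ^ 2 / (100 * T))) ≤ w (T, z)) ∧
      (∀ b, 0 ≤ b → b < a → ∀ z ∈ Reg Ω c δ, dsq z c ≤ δ ^ 2 / 4 →
        d z = 3 * rad T K a b / 5 → w (T, z) ≤ b →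
          δ / 2 < rad T K a b ∨ δ / (8 * rad T K a b) < L T ∨
            1 / 5 * rad T K a b ^ (-θ) < H T)) ∧
    (∀ c₁ : ℝ, 0 < δ → 0 < θ → Plane HP (c₁, 0) δ T u v p w K a → FlatWall c₁ δ T u v l h θ →
      ∀ b, 0 ≤ b → b < a → (∀ z ∈ Reg HP (c₁, 0) δ, w (T, z) ≤ b) →
        δ / 2 < rad T K a b ∨ δ / (8 * rad T K a b) < L T ∨
          1 / 5 * rad T K a b ^ (-θ) < H T) ∧
    (∀ (Ω : Set (ℝ × ℝ)) (c : ℝ × ℝ) (d : ℝ × ℝ → ℝ), IsWall Ω c δ d → 2 * δ ≤ c.1 → 0 ≤ θ →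
      Axisymmetric Ω c δ T u v p w K a → NearWall Ω c δ T d u v l h θ →
      ∀ b, 0 ≤ b → b < a → ∀ z ∈ Reg Ω c δ, dsq z c ≤ δ ^ 2 / 4 →
        d z = 3 * rad T K a b / 5 → w (T, z) ≤ b →
          δ / 2 < rad T K a b ∨ δ / (16 * rad T K a b) < L T ∨
            1 / 10 * rad T K a b ^ (-θ) < H T) := by
  refine ⟨fun Ω c d hd hθ hP hN => ?_, fun c₁ hδ hθ hP hF b hb hba hwb => ?_,
    fun Ω c d hd hc hθ hA hN b hb hba z hz hz1 hz2 hwb => ?_⟩
  · have hOp : IsOpen (Ioo 0 T ×ˢ Reg Ω c δ) := isOpen_Ioo.prod (isOpen_Reg hd)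
    obtain ⟨hw2, heq⟩ := vorticity_eq hOp hP.ns hP.vort
    have key : ∀ r, 0 < r → r ≤ δ / 2 → L T ≤ δ / (8 * r) → H T * r ^ θ ≤ 1 / 5 →
        ∀ z ∈ Reg Ω c δ, dsq z c ≤ δ ^ 2 / 4 → d z = 3 * r / 5 →
          a - 7 * K * Real.exp (-(r ^ 2 / (100 * T))) ≤ w (T, z) :=
      fun r hr h1 h2 h3 z hz hz1 hz2 =>
        wall hd hT hP.cont hw2 heq hL.cont hL.zero hL.deriv hL.nonneg hH.cont hH.zero hH.deriv
          hH.nonneg hθ hN.speed hN.normal ha haK hP.bound hP.init hr h1 h2 h3 hz hz1 hz2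
    refine ⟨key, fun b hb hba z hz hz1 hz2 hwb => ?_⟩
    exact alt (r := rad T K a b) (LT := L T) (α := δ / (8 * rad T K a b)) hT haK hb hba rfl hwb
      (fun h1 h2 _ h3 h4 => key _ h1 h2 h3 h4 z hz hz1 hz2)
  · set r := rad T K a b with hr
    rcases le_or_gt r (δ / 2) with hrδ | hrδ
    swap
    · exact Or.inl hrδ
    have hr0 : 0 ≤ r := by rw [hr]; unfold rad; positivity
    have hab : 0 < a - b := by linarith
    have hpos : 0 < r := by
      have h8 : 1 < 8 * K / (a - b) := by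
        rw [lt_div_iff₀ hab]; linarith
      rw [hr]; unfold rad
      have := Real.log_pos h8
      positivity
    have hz : ((c₁, 3 * r / 5) : ℝ × ℝ) ∈ Reg HP (c₁, 0) δ := by
      rw [mem_reg_half]
      refine ⟨by positivity, ?_⟩
      nlinarith
    have hz1 : dsq (c₁, 3 * r / 5) (c₁, 0) ≤ δ ^ 2 / 4 := by
      simp only [dsq]
      nlinarith
    exact alt (r := r) (LT := L T) (α := δ / (8 * r)) hT haK hb hba hr (hwb _ hz)
      (fun h1 h2 _ h3 h4 => flat hδ hT hP.ns hP.vort hP.cont hF.noslip_u hF.noslip_v hL.cont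
        hL.zero hL.deriv hL.nonneg hH.cont hH.zero hH.deriv hH.nonneg hθ hF.grad hF.holder ha haK
        hP.bound hP.init h1 h2 h3 h4 hz hz1 rfl)
  · exact alt (r := rad T K a b) (LT := L T) (α := δ / (16 * rad T K a b)) hT haK hb hba rfl hwb
      (fun h1 h2 h5 h3 h4 => axi hd hc hT hA.ns hA.vort hA.cont hL.cont hL.zero hL.deriv
        hL.nonneg hH.cont hH.zero hH.deriv hH.nonneg hθ hN.speed hN.normal ha haK hA.bound hA.init
        h1 h2 h5 h3 h4 hz hz1 hz2)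

end Pool.Agent.Results.MP_79abb3_an.PowerLawCost
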